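import Pool.Agent.Lib.helper1.Tc1

set_option autoImplicit false

namespace Pool.Agent.Results.MP_5c5fd6_lc.Value

open Finset MeasureTheory
open scoped ENNReal

/-- the time at which the searcher passes the origin on its way to the `i`-th turning point
`(-1)^i x i`: each earlier excursion costs `2 x j` and one turn -/
noncomputable def T (d : ℝ) (x : ℕ → ℝ) (i : ℕ) : ℝ := ∑ j ∈ range i, (2 * x j + d)

/-- the first time at `H`: the first visit occurs on an outward run from `0` to some turning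
point `(-1)^i x i`, at time `T i + |H|`; the value is `∞` if no run contains `H` -/
noncomputable def C (d : ℝ) (x : ℕ → ℝ) (H : ℝ) : ℝ≥0∞ :=
  ⨅ i : ℕ, ⨅ _ : H ∈ Set.uIcc 0 ((-1) ^ i * x i), ENNReal.ofReal (T d x i + |H|)

/-- the upper value `inf_S sup_h E_h C(S, H)` over hiding laws with `E|H| ≤ 1` -/
noncomputable def V (d : ℝ) : ℝ≥0∞ :=
  ⨅ x : ℕ → ℝ, ⨅ _ : ∀ i, 0 < x i, ⨆ h : ProbabilityMeasure ℝ,
    ⨆ _ : ∫⁻ H, ENNReal.ofReal |H| ∂(h : Measure ℝ) ≤ 1, ∫⁻ H, C d x H ∂(h : Measure ℝ)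

theorem result (d : ℝ) (hd : 0 < d) : V d = ENNReal.ofReal (5 + d + 2 * √(4 + 2 * d)) ∧
    V d < ENNReal.ofReal (9 + 2 * d) :=
  Pool.Agent.Lib.helper1.Tc.final hd

end Pool.Agent.Results.MP_5c5fd6_lc.Value
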